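import Mathlib

/-!
Gauge theory data with U(1) R-symmetry and the Rains function (definitions).
-/

set_option autoImplicit false

open scoped Matrix

namespace Pool.Agent.H99.Rains

/-- `ϑ(t) = {t}(1-{t})`. -/
noncomputable def vth (t : ℝ) : ℝ := Int.fract t * (1 - Int.fract t)

/-- The subgroup `G` of the unitary group `U(n)` is a compact connected semisimple Lie group:
it is closed, connected, and has finite centre. -/
def CompactConnectedSemisimple {n : ℕ} (G : Subgroup (Matrix.unitaryGroup (Fin n) ℂ)) : Prop :=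
  IsClosed (G : Set (Matrix.unitaryGroup (Fin n) ℂ)) ∧
  IsConnected (G : Set (Matrix.unitaryGroup (Fin n) ℂ)) ∧
  {g | g ∈ G ∧ ∀ h ∈ G, g * h = h * g}.Finite

/-- `e : ℝ^r → G` gives Cartan coordinates: it is a continuous homomorphism with discrete kernel
onto a maximal torus (a subgroup that is its own centraliser in `G`). -/
def CartanCoordinates {n r : ℕ} (G : Subgroup (Matrix.unitaryGroup (Fin n) ℂ))
    (e : (Fin r → ℝ) → Matrix.unitaryGroup (Fin n) ℂ) : Prop :=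
  Continuous e ∧ (∀ x y, e (x + y) = e x * e y) ∧
  (∃ ε > 0, ∀ x, ‖x‖ < ε → e x = 1 → x = 0) ∧
  (∀ x, e x ∈ G) ∧ (∀ g ∈ G, (∀ x, g * e x = e x * g) → ∃ x, g = e x)

/-- The complexified Lie algebra of `G`. -/
noncomputable def lieC {n : ℕ} (G : Subgroup (Matrix.unitaryGroup (Fin n) ℂ)) :
    Submodule ℂ (Matrix (Fin n) (Fin n) ℂ) :=
  Submodule.span ℂ {X | ∀ t : ℝ, ∃ g ∈ G, (g : Matrix (Fin n) (Fin n) ℂ) = NormedSpace.exp (t • X)}

/-- `Δ` is the set of roots: the nonzero `α` with a nonzero root vector in the complexified Lie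
algebra (every root has multiplicity one). -/
def IsRootSet {n r : ℕ} (G : Subgroup (Matrix.unitaryGroup (Fin n) ℂ))
    (e : (Fin r → ℝ) → Matrix.unitaryGroup (Fin n) ℂ) (Δ : Finset (Fin r → ℝ)) : Prop :=
  ∀ α, α ∈ Δ ↔ α ≠ 0 ∧ ∃ X ∈ lieC G, X ≠ 0 ∧ ∀ x,
    (e x : Matrix (Fin n) (Fin n) ℂ) * X =
      Complex.exp (2 * Real.pi * Complex.I * ((α ⬝ᵥ x : ℝ) : ℂ)) •
        (X * (e x : Matrix (Fin n) (Fin n) ℂ))

/-- `π` restricts to a continuous matrix representation of `G` whose weights, with multiplicity,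
are `w 0, ..., w (d-1)`. -/
def RepWithWeights {n r d : ℕ} (G : Subgroup (Matrix.unitaryGroup (Fin n) ℂ))
    (e : (Fin r → ℝ) → Matrix.unitaryGroup (Fin n) ℂ)
    (π : Matrix.unitaryGroup (Fin n) ℂ → Matrix (Fin d) (Fin d) ℂ)
    (w : Fin d → Fin r → ℝ) : Prop :=
  ContinuousOn π (G : Set (Matrix.unitaryGroup (Fin n) ℂ)) ∧ π 1 = 1 ∧
  (∀ g ∈ G, ∀ h ∈ G, π (g * h) = π g * π h) ∧
  ∃ P : Matrix (Fin d) (Fin d) ℂ, IsUnit P.det ∧ ∀ x, π (e x) * P =
    P * Matrix.diagonal (fun k => Complex.exp (2 * Real.pi * Complex.I * ((w k ⬝ᵥ x : ℝ) : ℂ)))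

/-- The data of the problem: a gauge group with Cartan coordinates and root set, finitely many
representations `π j` with weights `w j` and R-charges `R j ∈ (0,2)`, subject to the two anomaly
conditions. -/
def IsGaugeData {n r J : ℕ} (G : Subgroup (Matrix.unitaryGroup (Fin n) ℂ))
    (e : (Fin r → ℝ) → Matrix.unitaryGroup (Fin n) ℂ) (Δ : Finset (Fin r → ℝ))
    (d : Fin J → ℕ)
    (π : ∀ j, Matrix.unitaryGroup (Fin n) ℂ → Matrix (Fin (d j)) (Fin (d j)) ℂ)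
    (w : ∀ j, Fin (d j) → Fin r → ℝ) (R : Fin J → ℝ) : Prop :=
  CompactConnectedSemisimple G ∧ CartanCoordinates G e ∧ IsRootSet G e Δ ∧
  (∀ j, RepWithWeights G e (π j) (w j)) ∧ (∀ j, 0 < R j ∧ R j < 2) ∧
  (∀ l m, ∑ j, (R j - 1) * ∑ k, w j k l * w j k m + ∑ α ∈ Δ, α l * α m = 0) ∧
  (∀ l m p, ∑ j, ∑ k, w j k l * w j k m * w j k p = 0)

/-- The data are non-chiral: nonzero weights come in pairs `±ρ` (with multiplicity). -/
def NonChiral {r J : ℕ} (d : Fin J → ℕ) (w : ∀ j, Fin (d j) → Fin r → ℝ) : Prop :=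
  ∀ ρ : Fin r → ℝ, ρ ≠ 0 →
    Nat.card {p : Σ j, Fin (d j) // w p.1 p.2 = ρ} = Nat.card {p : Σ j, Fin (d j) // w p.1 p.2 = -ρ}

/-- The Rains function. (Summing over all roots with weight `1/2` is the sum over positive
roots, because `ϑ` is even.) -/
noncomputable def Lh {r J : ℕ} (Δ : Finset (Fin r → ℝ)) (d : Fin J → ℕ)
    (w : ∀ j, Fin (d j) → Fin r → ℝ) (R : Fin J → ℝ) (x : Fin r → ℝ) : ℝ :=
  1 / 2 * ∑ j, (1 - R j) * ∑ k, vth (w j k ⬝ᵥ x) - 1 / 2 * ∑ α ∈ Δ, vth (α ⬝ᵥ x)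

end Pool.Agent.H99.Rains
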