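import Pool.Agent.H99.Rains.Reps

/-!
The counterexample.
-/

set_option autoImplicit false

open scoped Matrix ComplexConjugate

namespace Pool.Agent.H99.Rains

lemma vth_of_abs_lt {t : ℝ} (h : |t| < 1) : vth t = |t| - t ^ 2 := by
  rcases le_or_gt 0 t with ht | ht
  · have h1 : Int.fract t = t := Int.fract_eq_self.2 ⟨ht, by rwa [abs_of_nonneg ht] at h⟩
    rw [vth, h1, abs_of_nonneg ht]; ring
  · have h2 : -1 < t := by rw [abs_of_neg ht] at h; linarith
    have h1 : Int.fract t = t + 1 := by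
      rw [← Int.fract_add_one t]
      exact Int.fract_eq_self.2 ⟨by linarith, by linarith⟩
    rw [vth, h1, abs_of_neg ht]; ring

lemma vth_half : vth (1 / 2) = 1 / 4 := by
  have h1 : Int.fract (1 / 2 : ℝ) = 1 / 2 := Int.fract_eq_self.2 ⟨by norm_num, by norm_num⟩
  rw [vth, h1]; norm_num

lemma vth_add_one (t : ℝ) : vth (t + 1) = vth t := by
  rw [vth, vth, Int.fract_add_one]

lemma vth_neg (t : ℝ) : vth (-t) = vth t := by
  by_cases h : Int.fract t = 0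
  · have : Int.fract (-t) = 0 := by
      rw [Int.fract_neg_eq_zero]; exact h
    rw [vth, vth, h, this]
  · rw [vth, vth, Int.fract_neg h]; ring

lemma vth_zero : vth 0 = 0 := by simp [vth]

lemma vth_one : vth 1 = 0 := by simp [vth]

lemma vth_three_half : vth (3 / 2) = 1 / 4 := by
  have : (3 / 2 : ℝ) = 1 / 2 + 1 := by norm_num
  rw [this, vth_add_one, vth_half]

/-- dimensions -/
def dC : Fin 4 → ℕ := fun _ => 4

/-- representations -/
noncomputable def piC : ∀ j : Fin 4, U2 → Matrix (Fin (dC j)) (Fin (dC j)) ℂ :=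
  fun j g => if j = 0 then sym3 (g : Matrix (Fin 2) (Fin 2) ℂ) else
    tens2 (g : Matrix (Fin 2) (Fin 2) ℂ)

/-- weights -/
noncomputable def wC : ∀ j : Fin 4, Fin (dC j) → Fin 1 → ℝ :=
  fun j => if j = 0 then wS else wT

/-- R-charges -/
noncomputable def RC : Fin 4 → ℝ := ![3 / 2, 1 / 4, 1 / 4, 1 / 4]

lemma wC_rep (j : Fin 4) : RepWithWeights SU2 eU (piC j) (wC j) := by
  by_cases h : j = 0
  · have e1 : piC j = fun g : U2 => sym3 (g : Matrix (Fin 2) (Fin 2) ℂ) := by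
      funext g; simp only [piC, h, if_true]
    have e2 : wC j = wS := by simp only [wC, h, if_true]
    rw [e1, e2]
    exact sym3_rep
  · have e1 : piC j = fun g : U2 => tens2 (g : Matrix (Fin 2) (Fin 2) ℂ) := by
      funext g; simp only [piC, h, if_false]
    have e2 : wC j = wT := by simp only [wC, h, if_false]
    rw [e1, e2]
    exact tens2_rep

lemma wS_sum (f : (Fin 1 → ℝ) → ℝ) : ∑ k, f (wS k) =
    f (fun _ => 3) + f (fun _ => 1) + f (fun _ => -1) + f (fun _ => -3) := by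
  rw [Fin.sum_univ_four]; rfl

lemma wT_sum (f : (Fin 1 → ℝ) → ℝ) : ∑ k, f (wT k) =
    f (fun _ => 2) + f (fun _ => 0) + f (fun _ => 0) + f (fun _ => -2) := by
  rw [Fin.sum_univ_four]; rfl

lemma wC_sum (c : Fin 4 → ℝ) (f : (Fin 1 → ℝ) → ℝ) : ∑ j, c j * ∑ k, f (wC j k) =
    c 0 * (f (fun _ => 3) + f (fun _ => 1) + f (fun _ => -1) + f (fun _ => -3)) +
    (c 1 + c 2 + c 3) * (f (fun _ => 2) + f (fun _ => 0) + f (fun _ => 0) + f (fun _ => -2)) := by
  rw [Fin.sum_univ_four]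
  have e0 : ∑ k, f (wC 0 k) = f (fun _ => 3) + f (fun _ => 1) + f (fun _ => -1) +
    f (fun _ => -3) := wS_sum f
  have e1 : ∑ k, f (wC 1 k) = f (fun _ => 2) + f (fun _ => 0) + f (fun _ => 0) +
    f (fun _ => -2) := wT_sum f
  have e2 : ∑ k, f (wC 2 k) = f (fun _ => 2) + f (fun _ => 0) + f (fun _ => 0) +
    f (fun _ => -2) := wT_sum f
  have e3 : ∑ k, f (wC 3 k) = f (fun _ => 2) + f (fun _ => 0) + f (fun _ => 0) +
    f (fun _ => -2) := wT_sum f
  rw [e0, e1, e2, e3]; ring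

lemma Δ_sum (f : (Fin 1 → ℝ) → ℝ) : ∑ α ∈ ΔSU2, f α = f (fun _ => 2) + f (fun _ => -2) := by
  unfold ΔSU2
  rw [Finset.sum_pair]
  intro h
  have := congrFun h 0
  norm_num at this

lemma RC_vals : RC 0 = 3 / 2 ∧ RC 1 = 1 / 4 ∧ RC 2 = 1 / 4 ∧ RC 3 = 1 / 4 := ⟨rfl, rfl, rfl, rfl⟩

lemma gaugeData : IsGaugeData SU2 eU ΔSU2 dC piC wC RC := by
  obtain ⟨r0, r1, r2, r3⟩ := RC_vals
  refine ⟨SU2_ccs, SU2_cartan, SU2_roots, wC_rep, ?_, ?_, ?_⟩
  · intro j
    fin_cases j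
    · change 0 < RC 0 ∧ RC 0 < 2; rw [r0]; norm_num
    · change 0 < RC 1 ∧ RC 1 < 2; rw [r1]; norm_num
    · change 0 < RC 2 ∧ RC 2 < 2; rw [r2]; norm_num
    · change 0 < RC 3 ∧ RC 3 < 2; rw [r3]; norm_num
  · intro l m
    have h1 := wC_sum (fun j => RC j - 1) (fun v => v l * v m)
    have h2 := Δ_sum (fun v => v l * v m)
    rw [h1, h2]
    simp only [r0, r1, r2, r3]
    norm_num
  · intro l m p
    have h1 := wC_sum (fun _ => 1) (fun v => v l * v m * v p)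
    simp only [one_mul] at h1
    rw [h1]
    norm_num

lemma wC_rev (j : Fin 4) (k : Fin 4) : wC j (Fin.rev k) = -wC j k := by
  have hS : ∀ k, wS (Fin.rev k) = -wS k := by
    intro k
    fin_cases k <;> (funext i; simp [wS, Fin.rev])
  have hT : ∀ k, wT (Fin.rev k) = -wT k := by
    intro k
    fin_cases k <;> (funext i; simp [wT, Fin.rev])
  by_cases h : j = 0
  · have e2 : wC j = wS := by simp only [wC, h, if_true]
    rw [e2]; exact hS k
  · have e2 : wC j = wT := by simp only [wC, h, if_false]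
    rw [e2]; exact hT k

lemma nonChiral : NonChiral dC wC := by
  intro ρ _
  apply Nat.card_congr
  refine Equiv.subtypeEquiv (Equiv.sigmaCongrRight fun j => Fin.revPerm) ?_
  intro p
  change wC p.1 p.2 = ρ ↔ wC p.1 (Fin.rev p.2) = -ρ
  rw [wC_rev, neg_inj]

lemma Lh_eq (x : Fin 1 → ℝ) : Lh ΔSU2 dC wC RC x =
    -(1 / 2) * vth (x 0) + 5 / 4 * vth (2 * x 0) - 1 / 2 * vth (3 * x 0) := by
  obtain ⟨r0, r1, r2, r3⟩ := RC_vals
  have h1 := wC_sum (fun j => 1 - RC j) (fun v => vth (v ⬝ᵥ x))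
  have h2 := Δ_sum (fun v => vth (v ⬝ᵥ x))
  rw [Lh, h1, h2]
  simp only [r0, r1, r2, r3, dot1, zero_mul, one_mul, neg_mul, vth_neg, vth_zero]
  ring

lemma Lh_local (x : Fin 1 → ℝ) (hx : ‖x‖ < 1 / 6) : Lh ΔSU2 dC wC RC x = |x 0| / 2 := by
  have h0 : |x 0| < 1 / 6 := lt_of_le_of_lt (norm_le_pi_norm x 0) hx
  have h2 : |2 * x 0| = 2 * |x 0| := by rw [abs_mul]; norm_num
  have h3 : |3 * x 0| = 3 * |x 0| := by rw [abs_mul]; norm_num
  rw [Lh_eq, vth_of_abs_lt (by linarith), vth_of_abs_lt (by rw [h2]; linarith),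
    vth_of_abs_lt (by rw [h3]; linarith), h2, h3]
  ring

lemma Lh_half : Lh ΔSU2 dC wC RC (fun _ => 1 / 2) = -1 / 4 := by
  rw [Lh_eq]
  have h1 : (2 * (1 / 2) : ℝ) = 1 := by norm_num
  have h2 : (3 * (1 / 2) : ℝ) = 3 / 2 := by norm_num
  rw [h1, h2, vth_half, vth_one, vth_three_half]
  norm_num

theorem counterexample : ∃ (n r J : ℕ) (G : Subgroup (Matrix.unitaryGroup (Fin n) ℂ))
    (e : (Fin r → ℝ) → Matrix.unitaryGroup (Fin n) ℂ) (Δ : Finset (Fin r → ℝ))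
    (d : Fin J → ℕ)
    (π : ∀ j, Matrix.unitaryGroup (Fin n) ℂ → Matrix (Fin (d j)) (Fin (d j)) ℂ)
    (w : ∀ j, Fin (d j) → Fin r → ℝ) (R : Fin J → ℝ),
    IsGaugeData G e Δ d π w R ∧ NonChiral d w ∧
    (∃ ε > 0, ∀ x, 0 < ‖x‖ → ‖x‖ < ε → 0 < Lh Δ d w R x) ∧ ∃ x, Lh Δ d w R x < 0 := by
  refine ⟨2, 1, 4, SU2, eU, ΔSU2, dC, piC, wC, RC, gaugeData, nonChiral, ⟨1 / 6, by norm_num, ?_⟩,
    fun _ => 1 / 2, ?_⟩
  · intro x hx0 hx
    rw [Lh_local x hx]
    have : x 0 ≠ 0 := by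
      intro h
      apply (norm_pos_iff.1 hx0)
      funext i
      fin_cases i
      exact h
    positivity
  · rw [Lh_half]; norm_num

end Pool.Agent.H99.Rains
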