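import Pool.Agent.H99.Rains.Roots

/-!
The two representations of SU(2) used in the counterexample.
-/

set_option autoImplicit false

open scoped Matrix ComplexConjugate

namespace Pool.Agent.H99.Rains

/-- the third symmetric power of a 2×2 matrix -/
def sym3 (M : Matrix (Fin 2) (Fin 2) ℂ) : Matrix (Fin 4) (Fin 4) ℂ :=
  !![M 0 0 ^ 3, M 0 0 ^ 2 * M 0 1, M 0 0 * M 0 1 ^ 2, M 0 1 ^ 3;
    3 * M 0 0 ^ 2 * M 1 0, M 0 0 ^ 2 * M 1 1 + 2 * M 0 0 * M 0 1 * M 1 0,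
      2 * M 0 0 * M 0 1 * M 1 1 + M 0 1 ^ 2 * M 1 0, 3 * M 0 1 ^ 2 * M 1 1;
    3 * M 0 0 * M 1 0 ^ 2, 2 * M 0 0 * M 1 0 * M 1 1 + M 0 1 * M 1 0 ^ 2,
      M 0 0 * M 1 1 ^ 2 + 2 * M 0 1 * M 1 0 * M 1 1, 3 * M 0 1 * M 1 1 ^ 2;
    M 1 0 ^ 3, M 1 0 ^ 2 * M 1 1, M 1 0 * M 1 1 ^ 2, M 1 1 ^ 3]

/-- the tensor square of a 2×2 matrix -/
def tens2 (M : Matrix (Fin 2) (Fin 2) ℂ) : Matrix (Fin 4) (Fin 4) ℂ :=
  !![M 0 0 * M 0 0, M 0 0 * M 0 1, M 0 1 * M 0 0, M 0 1 * M 0 1;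
    M 0 0 * M 1 0, M 0 0 * M 1 1, M 0 1 * M 1 0, M 0 1 * M 1 1;
    M 1 0 * M 0 0, M 1 0 * M 0 1, M 1 1 * M 0 0, M 1 1 * M 0 1;
    M 1 0 * M 1 0, M 1 0 * M 1 1, M 1 1 * M 1 0, M 1 1 * M 1 1]

lemma sym3_mul (A B : Matrix (Fin 2) (Fin 2) ℂ) : sym3 (A * B) = sym3 A * sym3 B := by
  ext i j
  fin_cases i <;> fin_cases j <;>
    simp [sym3, Matrix.mul_apply, Fin.sum_univ_succ] <;> ring

lemma tens2_mul (A B : Matrix (Fin 2) (Fin 2) ℂ) : tens2 (A * B) = tens2 A * tens2 B := by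
  ext i j
  fin_cases i <;> fin_cases j <;>
    simp [tens2, Matrix.mul_apply, Fin.sum_univ_succ] <;> ring

lemma sym3_one : sym3 1 = 1 := by
  ext i j
  fin_cases i <;> fin_cases j <;> simp [sym3]

lemma tens2_one : tens2 1 = 1 := by
  ext i j
  fin_cases i <;> fin_cases j <;> simp [tens2]

lemma sym3_continuous : Continuous sym3 := by
  unfold sym3
  apply continuous_matrix
  intro i j
  fin_cases i <;> fin_cases j <;> simp <;> fun_prop

lemma tens2_continuous : Continuous tens2 := by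
  unfold tens2
  apply continuous_matrix
  intro i j
  fin_cases i <;> fin_cases j <;> simp <;> fun_prop

/-- weights of `sym3` -/
def wS : Fin 4 → Fin 1 → ℝ := ![fun _ => 3, fun _ => 1, fun _ => -1, fun _ => -3]
/-- weights of `tens2` -/
def wT : Fin 4 → Fin 1 → ℝ := ![fun _ => 2, fun _ => 0, fun _ => 0, fun _ => -2]

lemma sym3_rep : RepWithWeights SU2 eU (fun g => sym3 (g : Matrix (Fin 2) (Fin 2) ℂ)) wS := by
  refine ⟨?_, ?_, ?_, 1, ?_, ?_⟩
  · exact (sym3_continuous.comp continuous_subtype_val).continuousOn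
  · exact sym3_one
  · intro g _ h _
    exact sym3_mul _ _
  · simp
  · intro x
    rw [mul_one, one_mul]
    beta_reduce
    rw [eU_coe]
    have h := exp_mul_exp_neg' (2 * Real.pi * Complex.I * (x 0 : ℂ))
    ext i j
    fin_cases i <;> fin_cases j <;> simp [sym3, eD, wS, dot1]
    · rw [← Complex.exp_nat_mul]; congr 1; push_cast; ring
    · rw [sq, mul_assoc, h, mul_one]
    · rw [sq, ← mul_assoc, h, one_mul]
    · rw [← Complex.exp_nat_mul]; congr 1; push_cast; ring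

lemma tens2_rep : RepWithWeights SU2 eU (fun g => tens2 (g : Matrix (Fin 2) (Fin 2) ℂ)) wT := by
  refine ⟨?_, ?_, ?_, 1, ?_, ?_⟩
  · exact (tens2_continuous.comp continuous_subtype_val).continuousOn
  · exact tens2_one
  · intro g _ h _
    exact tens2_mul _ _
  · simp
  · intro x
    rw [mul_one, one_mul]
    beta_reduce
    rw [eU_coe]
    have h := exp_mul_exp_neg' (2 * Real.pi * Complex.I * (x 0 : ℂ))
    ext i j
    fin_cases i <;> fin_cases j <;> simp [tens2, eD, wT, dot1]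
    · rw [← Complex.exp_add]; congr 1; ring
    · exact h
    · rw [mul_comm]; exact h
    · rw [← Complex.exp_add]; congr 1; ring

end Pool.Agent.H99.Rains
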