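import Pool.Agent.H99.Rains.SU2

/-!
Root set of SU(2).
-/

set_option autoImplicit false

open scoped Matrix ComplexConjugate

namespace Pool.Agent.H99.Rains

lemma exp_mem_unitary {n : ℕ} (A : Matrix (Fin n) (Fin n) ℂ) (hA : Aᴴ = -A) :
    NormedSpace.exp A ∈ Matrix.unitaryGroup (Fin n) ℂ := by
  rw [Matrix.mem_unitaryGroup_iff, Matrix.star_eq_conjTranspose, ← Matrix.exp_conjTranspose, hA,
    Matrix.exp_neg]
  have : IsUnit (NormedSpace.exp A).det :=
    (Matrix.isUnit_iff_isUnit_det _).mp (Matrix.isUnit_exp _)
  exact Matrix.mul_nonsing_inv _ this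

lemma exp_det_one (X P : Matrix (Fin 2) (Fin 2) ℂ) (hP : IsUnit P.det)
    (hX : X * P = P * Matrix.diagonal ![Complex.I, -Complex.I]) (t : ℝ) :
    (NormedSpace.exp (t • X)).det = 1 := by
  have hPu : IsUnit P := (Matrix.isUnit_iff_isUnit_det _).2 hP
  have h1 : X = P * Matrix.diagonal ![Complex.I, -Complex.I] * P⁻¹ := by
    rw [← hX, mul_assoc, Matrix.mul_nonsing_inv _ hP, mul_one]
  have h2 : t • X = P * (Matrix.diagonal (t • ![Complex.I, -Complex.I])) * P⁻¹ := by
    rw [Matrix.diagonal_smul, Matrix.mul_smul, Matrix.smul_mul, ← h1]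
  rw [h2, Matrix.exp_conj _ _ hPu, Matrix.exp_diagonal, Matrix.det_mul, Matrix.det_mul,
    Matrix.det_diagonal]
  rw [mul_right_comm, ← Matrix.det_mul, Matrix.mul_nonsing_inv _ hP, Matrix.det_one, one_mul]
  rw [Fin.prod_univ_two, Pi.coe_exp, Pi.coe_exp]
  simp only [Pi.smul_apply, Matrix.cons_val_zero, Matrix.cons_val_one]
  rw [← Complex.exp_eq_exp_ℂ, ← Complex.exp_add]
  simp

/-- skew-Hermitian generators -/
def X1 : Matrix (Fin 2) (Fin 2) ℂ := !![0, -1; 1, 0]
/-- skew-Hermitian generators -/
def X2 : Matrix (Fin 2) (Fin 2) ℂ := !![0, Complex.I; Complex.I, 0]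

lemma X1_herm (t : ℝ) : (t • X1)ᴴ = -(t • X1) := by
  ext i j
  fin_cases i <;> fin_cases j <;> simp [X1, Matrix.conjTranspose_apply]

lemma X2_herm (t : ℝ) : (t • X2)ᴴ = -(t • X2) := by
  ext i j
  fin_cases i <;> fin_cases j <;> simp [X2, Matrix.conjTranspose_apply]

lemma X1_mem : X1 ∈ lieC SU2 := by
  apply Submodule.subset_span
  intro t
  refine ⟨⟨NormedSpace.exp (t • X1), exp_mem_unitary _ (X1_herm t)⟩, ?_, rfl⟩
  apply exp_det_one X1 !![1, 1; -Complex.I, Complex.I]
  · rw [Matrix.det_fin_two]
    simp
  · ext i j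
    fin_cases i <;> fin_cases j <;> simp [X1, Matrix.mul_apply, Fin.sum_univ_two]

lemma X2_mem : X2 ∈ lieC SU2 := by
  apply Submodule.subset_span
  intro t
  refine ⟨⟨NormedSpace.exp (t • X2), exp_mem_unitary _ (X2_herm t)⟩, ?_, rfl⟩
  apply exp_det_one X2 !![1, 1; 1, -1]
  · rw [Matrix.det_fin_two]
    simp
    norm_num
  · ext i j
    fin_cases i <;> fin_cases j <;> simp [X2, Matrix.mul_apply, Fin.sum_univ_two]

lemma E12_mem : (!![0, 1; 0, 0] : Matrix (Fin 2) (Fin 2) ℂ) ∈ lieC SU2 := by
  have : (!![0, 1; 0, 0] : Matrix (Fin 2) (Fin 2) ℂ) =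
      (-1 / 2 : ℂ) • X1 + (-Complex.I / 2) • X2 := by
    have hI := Complex.I_mul_I
    ext i j
    fin_cases i <;> fin_cases j <;> simp [X1, X2]
    · linear_combination (1 / 2 : ℂ) * hI
    · linear_combination (1 / 2 : ℂ) * hI
  rw [this]
  exact Submodule.add_mem _ (Submodule.smul_mem _ _ X1_mem) (Submodule.smul_mem _ _ X2_mem)

lemma E21_mem : (!![0, 0; 1, 0] : Matrix (Fin 2) (Fin 2) ℂ) ∈ lieC SU2 := by
  have : (!![0, 0; 1, 0] : Matrix (Fin 2) (Fin 2) ℂ) =
      (1 / 2 : ℂ) • X1 + (-Complex.I / 2) • X2 := by
    have hI := Complex.I_mul_I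
    ext i j
    fin_cases i <;> fin_cases j <;> simp [X1, X2]
    · linear_combination (1 / 2 : ℂ) * hI
    · linear_combination (1 / 2 : ℂ) * hI
  rw [this]
  exact Submodule.add_mem _ (Submodule.smul_mem _ _ X1_mem) (Submodule.smul_mem _ _ X2_mem)

/-- the roots of `SU(2)` -/
noncomputable def ΔSU2 : Finset (Fin 1 → ℝ) := {fun _ => 2, fun _ => -2}

lemma exp_const {c : ℝ}
    (h : ∀ x : ℝ, Complex.exp (2 * Real.pi * Complex.I * ((c * x : ℝ) : ℂ)) = 1) : c = 0 := by
  by_contra hc
  have h1 := h (1 / (2 * c))
  have h2 : 2 * Real.pi * Complex.I * ((c * (1 / (2 * c)) : ℝ) : ℂ) = Real.pi * Complex.I := by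
    have : c * (1 / (2 * c)) = 1 / 2 := by field_simp
    rw [this]; push_cast; ring
  rw [h2, Complex.exp_pi_mul_I] at h1
  norm_num at h1

lemma dot1 (a x : Fin 1 → ℝ) : a ⬝ᵥ x = a 0 * x 0 := by
  simp [dotProduct]

lemma SU2_roots : IsRootSet SU2 eU ΔSU2 := by
  intro α
  constructor
  · intro hα
    simp only [ΔSU2, Finset.mem_insert, Finset.mem_singleton] at hα
    rcases hα with rfl | rfl
    · refine ⟨?_, !![0, 1; 0, 0], E12_mem, ?_, ?_⟩
      · intro h
        have := congrFun h 0
        simp at this
      · intro h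
        have := congrFun (congrFun h 0) 1
        simp at this
      · intro x
        rw [dot1, eU_coe]
        ext i j
        fin_cases i <;> fin_cases j <;>
          simp [eD, Matrix.mul_apply, Fin.sum_univ_two]
        rw [← Complex.exp_add]
        congr 1
        ring
    · refine ⟨?_, !![0, 0; 1, 0], E21_mem, ?_, ?_⟩
      · intro h
        have := congrFun h 0
        simp at this
      · intro h
        have := congrFun (congrFun h 1) 0
        simp at this
      · intro x
        rw [dot1, eU_coe]
        ext i j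
        fin_cases i <;> fin_cases j <;>
          simp [eD, Matrix.mul_apply, Fin.sum_univ_two]
        rw [← Complex.exp_add]
        congr 1
        ring
  · rintro ⟨hα, X, -, hX, h⟩
    simp only [ΔSU2, Finset.mem_insert, Finset.mem_singleton]
    have hent : ∀ (x : ℝ) (i j : Fin 2),
        (eD (fun _ => x) * X) i j =
          Complex.exp (2 * Real.pi * Complex.I * ((α 0 * x : ℝ) : ℂ)) * (X * eD (fun _ => x)) i j := by
      intro x i j
      have := congrFun (congrFun (h (fun _ => x)) i) j
      rw [dot1, eU_coe] at this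
      simpa using this
    have hd : ∀ i, X i i = 0 := by
      intro i
      by_contra hXi
      apply hα
      have h0 : α 0 = 0 := by
        apply exp_const
        intro x
        have := hent x i i
        fin_cases i
        · simp [eD, Matrix.mul_apply, Fin.sum_univ_two] at this hXi
          have h3 : (Complex.exp (2 * Real.pi * Complex.I * (x : ℂ)) * X 0 0) * (Complex.exp (2 * Real.pi * Complex.I * ((α 0 * x : ℝ) : ℂ)) - 1) = 0 := by
            push_cast
            linear_combination -this
          rcases mul_eq_zero.1 h3 with h4 | h4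
          · rcases mul_eq_zero.1 h4 with h5 | h5
            · exact absurd h5 (Complex.exp_ne_zero _)
            · exact absurd h5 hXi
          · linear_combination h4
        · simp [eD, Matrix.mul_apply, Fin.sum_univ_two] at this hXi
          have h3 : (Complex.exp (-(2 * Real.pi * Complex.I * (x : ℂ))) * X 1 1) * (Complex.exp (2 * Real.pi * Complex.I * ((α 0 * x : ℝ) : ℂ)) - 1) = 0 := by
            push_cast
            linear_combination -this
          rcases mul_eq_zero.1 h3 with h4 | h4
          · rcases mul_eq_zero.1 h4 with h5 | h5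
            · exact absurd h5 (Complex.exp_ne_zero _)
            · exact absurd h5 hXi
          · linear_combination h4
      funext i
      fin_cases i
      simpa using h0
    by_cases h01 : X 0 1 = 0
    · right
      have h10 : X 1 0 ≠ 0 := by
        intro h10
        apply hX
        ext i j
        fin_cases i <;> fin_cases j
        · exact hd 0
        · exact h01
        · exact h10
        · exact hd 1
      have h0 : α 0 + 2 = 0 := by
        apply exp_const
        intro x
        have := hent x 1 0
        simp [eD, Matrix.mul_apply, Fin.sum_univ_two] at this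
        have h3 : Complex.exp (2 * Real.pi * Complex.I * (((α 0 + 2) * x : ℝ) : ℂ)) =
            Complex.exp (2 * Real.pi * Complex.I * ((α 0 : ℂ) * (x : ℂ))) *
            Complex.exp (2 * Real.pi * Complex.I * (x : ℂ)) *
            Complex.exp (2 * Real.pi * Complex.I * (x : ℂ)) := by
          rw [← Complex.exp_add, ← Complex.exp_add]
          congr 1
          push_cast; ring
        have h4 := exp_mul_exp_neg' (2 * Real.pi * Complex.I * (x : ℂ))
        rw [h3]
        have h5 : X 1 0 * (Complex.exp (2 * Real.pi * Complex.I * ((α 0 : ℂ) * (x : ℂ))) *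
            Complex.exp (2 * Real.pi * Complex.I * (x : ℂ)) *
            Complex.exp (2 * Real.pi * Complex.I * (x : ℂ)) - 1) = 0 := by
          linear_combination (-Complex.exp (2 * Real.pi * Complex.I * (x : ℂ))) * this + X 1 0 * h4
        rcases mul_eq_zero.1 h5 with h6 | h6
        · exact absurd h6 h10
        · linear_combination h6
      funext i
      fin_cases i
      have : α 0 = -2 := by linarith
      simpa using this
    · left
      have h0 : α 0 - 2 = 0 := by
        apply exp_const
        intro x
        have := hent x 0 1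
        simp [eD, Matrix.mul_apply, Fin.sum_univ_two] at this
        have h3 : Complex.exp (2 * Real.pi * Complex.I * (((α 0 - 2) * x : ℝ) : ℂ)) =
            Complex.exp (2 * Real.pi * Complex.I * ((α 0 : ℂ) * (x : ℂ))) *
            Complex.exp (-(2 * Real.pi * Complex.I * (x : ℂ))) *
            Complex.exp (-(2 * Real.pi * Complex.I * (x : ℂ))) := by
          rw [← Complex.exp_add, ← Complex.exp_add]
          congr 1
          push_cast; ring
        have h4 := exp_mul_exp_neg' (2 * Real.pi * Complex.I * (x : ℂ))
        rw [h3]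
        have h5 : X 0 1 * (Complex.exp (2 * Real.pi * Complex.I * ((α 0 : ℂ) * (x : ℂ))) *
            Complex.exp (-(2 * Real.pi * Complex.I * (x : ℂ))) *
            Complex.exp (-(2 * Real.pi * Complex.I * (x : ℂ))) - 1) = 0 := by
          linear_combination (-Complex.exp (-(2 * Real.pi * Complex.I * (x : ℂ)))) * this + X 0 1 * h4
        rcases mul_eq_zero.1 h5 with h6 | h6
        · exact absurd h6 h01
        · linear_combination h6
      funext i
      fin_cases i
      have : α 0 = 2 := by linarith
      simpa using this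

end Pool.Agent.H99.Rains
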