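import Pool.Agent.H99.Rains.Defs

/-!
The group SU(2) inside U(2): closed, connected, finite centre, torus, roots, representations.
-/

set_option autoImplicit false

open scoped Matrix ComplexConjugate

namespace Pool.Agent.H99.Rains

/-- `U(2)` -/
abbrev U2 := Matrix.unitaryGroup (Fin 2) ℂ

/-- `SU(2)` as a subgroup of `U(2)` -/
def SU2 : Subgroup U2 where
  carrier := {g | (g : Matrix (Fin 2) (Fin 2) ℂ).det = 1}
  mul_mem' := by
    intro a b ha hb
    simp only [Set.mem_ofPred_eq] at *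
    rw [Submonoid.coe_mul, Matrix.det_mul, ha, hb, one_mul]
  one_mem' := by simp
  inv_mem' := by
    intro a ha
    simp only [Set.mem_ofPred_eq] at *
    rw [Matrix.UnitaryGroup.inv_val, Matrix.star_eq_conjTranspose, Matrix.det_conjTranspose, ha]
    simp

lemma mem_SU2 (g : U2) : g ∈ SU2 ↔ (g : Matrix (Fin 2) (Fin 2) ℂ).det = 1 := Iff.rfl

lemma SU2_star {g : U2} (hg : g ∈ SU2) :
    star (g : Matrix (Fin 2) (Fin 2) ℂ) = (g : Matrix (Fin 2) (Fin 2) ℂ).adjugate := by
  rw [mem_SU2] at hg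
  have h1 : (g : Matrix (Fin 2) (Fin 2) ℂ) * (g : Matrix (Fin 2) (Fin 2) ℂ).adjugate = 1 := by
    rw [Matrix.mul_adjugate, hg, one_smul]
  have h2 : star (g : Matrix (Fin 2) (Fin 2) ℂ) * (g : Matrix (Fin 2) (Fin 2) ℂ) = 1 :=
    Matrix.UnitaryGroup.star_mul_self g
  calc star (g : Matrix (Fin 2) (Fin 2) ℂ)
      = star (g : Matrix (Fin 2) (Fin 2) ℂ) * ((g : Matrix (Fin 2) (Fin 2) ℂ) *
        (g : Matrix (Fin 2) (Fin 2) ℂ).adjugate) := by rw [h1, mul_one]
    _ = _ := by rw [← mul_assoc, h2, one_mul]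

lemma SU2_entries {g : U2} (hg : g ∈ SU2) :
    g.1 1 1 = conj (g.1 0 0) ∧ g.1 0 1 = - conj (g.1 1 0) := by
  have h := SU2_star hg
  rw [Matrix.adjugate_fin_two] at h
  constructor
  · have := congrFun (congrFun h 0) 0
    simpa using this.symm
  · have := congrFun (congrFun h 0) 1
    simp at this
    rw [this, neg_neg]

lemma SU2_closed : IsClosed (SU2 : Set U2) := by
  have : (SU2 : Set U2) = (fun g : U2 => (g : Matrix (Fin 2) (Fin 2) ℂ).det) ⁻¹' {1} := rfl
  rw [this]
  apply isClosed_singleton.preimage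
  exact Continuous.matrix_det continuous_subtype_val

/-- parametrisation by the three-sphere -/
noncomputable def par (p : EuclideanSpace ℝ (Fin 4)) : Matrix (Fin 2) (Fin 2) ℂ :=
  !![(p 0 : ℂ) + p 1 * Complex.I, -(p 2 : ℂ) + p 3 * Complex.I;
    (p 2 : ℂ) + p 3 * Complex.I, (p 0 : ℂ) - p 1 * Complex.I]

lemma sphere_eq {p : EuclideanSpace ℝ (Fin 4)} (hp : p ∈ Metric.sphere (0 : EuclideanSpace ℝ (Fin 4)) 1) :
    p 0 ^ 2 + p 1 ^ 2 + p 2 ^ 2 + p 3 ^ 2 = 1 := by
  rw [mem_sphere_zero_iff_norm, EuclideanSpace.norm_eq, Real.sqrt_eq_one] at hp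
  simpa [Fin.sum_univ_four] using hp

lemma par_unitary {p : EuclideanSpace ℝ (Fin 4)}
    (hp : p 0 ^ 2 + p 1 ^ 2 + p 2 ^ 2 + p 3 ^ 2 = 1) : par p ∈ Matrix.unitaryGroup (Fin 2) ℂ := by
  rw [Matrix.mem_unitaryGroup_iff]
  have h : ((p 0 : ℂ)) ^ 2 + (p 1 : ℂ) ^ 2 + (p 2 : ℂ) ^ 2 + (p 3 : ℂ) ^ 2 = 1 := by
    have h' := congrArg (fun t : ℝ => (t : ℂ)) hp
    push_cast at h'
    exact h'
  have hI := Complex.I_sq
  ext i j
  fin_cases i <;> fin_cases j <;>
    simp [par, Matrix.mul_apply, Fin.sum_univ_two, Matrix.star_apply]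
  · linear_combination h + (-(p 1 : ℂ)^2 - (p 3 : ℂ)^2) * hI
  · ring
  · ring
  · linear_combination h + (-(p 1 : ℂ)^2 - (p 3 : ℂ)^2) * hI

lemma par_det {p : EuclideanSpace ℝ (Fin 4)}
    (hp : p 0 ^ 2 + p 1 ^ 2 + p 2 ^ 2 + p 3 ^ 2 = 1) : (par p).det = 1 := by
  have h : ((p 0 : ℂ)) ^ 2 + (p 1 : ℂ) ^ 2 + (p 2 : ℂ) ^ 2 + (p 3 : ℂ) ^ 2 = 1 := by
    have h' := congrArg (fun t : ℝ => (t : ℂ)) hp
    push_cast at h'
    exact h'
  have hI := Complex.I_sq
  rw [Matrix.det_fin_two]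
  simp [par]
  linear_combination h + (-(p 1 : ℂ)^2 - (p 3 : ℂ)^2) * hI

lemma par_continuous : Continuous par := by
  unfold par
  apply continuous_matrix
  intro i j
  fin_cases i <;> fin_cases j <;> simp <;> fun_prop

lemma SU2_connected : IsConnected (SU2 : Set U2) := by
  have hrank : 1 < Module.rank ℝ (EuclideanSpace ℝ (Fin 4)) := by
    rw [rank_eq_card_basis (EuclideanSpace.basisFun (Fin 4) ℝ).toBasis]
    simp
  have hsph := isConnected_sphere hrank (0 : EuclideanSpace ℝ (Fin 4)) (zero_le_one)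
  have hconn : ConnectedSpace (Metric.sphere (0 : EuclideanSpace ℝ (Fin 4)) 1) :=
    isConnected_iff_connectedSpace.1 hsph
  let f : Metric.sphere (0 : EuclideanSpace ℝ (Fin 4)) 1 → U2 := fun p =>
    ⟨par p.1, par_unitary (sphere_eq p.2)⟩
  have hf : Continuous f := by
    apply Continuous.subtype_mk
    exact par_continuous.comp continuous_subtype_val
  have hrange : Set.range f = (SU2 : Set U2) := by
    ext g
    constructor
    · rintro ⟨p, rfl⟩
      exact par_det (sphere_eq p.2)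
    · intro hg
      obtain ⟨h11, h01⟩ := SU2_entries hg
      have hdet := (mem_SU2 g).1 hg
      rw [Matrix.det_fin_two, h11, h01] at hdet
      set a := g.1 0 0 with ha
      set b := g.1 1 0 with hb
      let p : EuclideanSpace ℝ (Fin 4) := !₂[a.re, a.im, b.re, b.im]
      have hp0 : p 0 = a.re := rfl
      have hp1 : p 1 = a.im := rfl
      have hp2 : p 2 = b.re := rfl
      have hp3 : p 3 = b.im := rfl
      have hn : p 0 ^ 2 + p 1 ^ 2 + p 2 ^ 2 + p 3 ^ 2 = 1 := by
        rw [hp0, hp1, hp2, hp3]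
        have e1 := congrArg Complex.re hdet
        simp at e1
        nlinarith [e1]
      have hpS : p ∈ Metric.sphere (0 : EuclideanSpace ℝ (Fin 4)) 1 := by
        rw [mem_sphere_zero_iff_norm, EuclideanSpace.norm_eq, Real.sqrt_eq_one]
        simpa [Fin.sum_univ_four] using hn
      refine ⟨⟨p, hpS⟩, ?_⟩
      apply Subtype.ext
      ext i j
      fin_cases i <;> fin_cases j
      · change (p 0 : ℂ) + p 1 * Complex.I = a
        rw [hp0, hp1]; exact Complex.re_add_im a
      · change -(p 2 : ℂ) + p 3 * Complex.I = g.1 0 1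
        rw [h01, hp2, hp3]
        apply Complex.ext <;> simp
      · change (p 2 : ℂ) + p 3 * Complex.I = b
        rw [hp2, hp3]; exact Complex.re_add_im b
      · change (p 0 : ℂ) - p 1 * Complex.I = g.1 1 1
        rw [h11, hp0, hp1]
        apply Complex.ext <;> simp
  rw [← hrange]
  exact isConnected_range hf

/-- the torus chart -/
noncomputable def eD (x : Fin 1 → ℝ) : Matrix (Fin 2) (Fin 2) ℂ :=
  !![Complex.exp (2 * Real.pi * Complex.I * (x 0 : ℂ)), 0;
    0, Complex.exp (-(2 * Real.pi * Complex.I * (x 0 : ℂ)))]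

lemma exp_mul_exp_neg' (z : ℂ) : Complex.exp z * Complex.exp (-z) = 1 := by
  rw [← Complex.exp_add, add_neg_cancel, Complex.exp_zero]

lemma conj_exp_im (y : ℝ) : conj (Complex.exp (2 * Real.pi * Complex.I * (y : ℂ))) =
    Complex.exp (-(2 * Real.pi * Complex.I * (y : ℂ))) := by
  rw [← Complex.exp_conj]
  congr 1
  simp
  left
  exact map_ofNat _ 2

lemma conj_exp_im' (y : ℝ) : conj (Complex.exp (-(2 * Real.pi * Complex.I * (y : ℂ)))) =
    Complex.exp (2 * Real.pi * Complex.I * (y : ℂ)) := by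
  rw [← Complex.exp_conj]
  congr 1
  simp
  left
  exact map_ofNat _ 2

lemma eD_unitary (x : Fin 1 → ℝ) : eD x ∈ Matrix.unitaryGroup (Fin 2) ℂ := by
  rw [Matrix.mem_unitaryGroup_iff]
  have h1 := exp_mul_exp_neg' (2 * Real.pi * Complex.I * (x 0 : ℂ))
  have h2 := conj_exp_im (x 0)
  have h3 := conj_exp_im' (x 0)
  ext i j
  fin_cases i <;> fin_cases j <;>
    simp [eD, Matrix.mul_apply, Fin.sum_univ_two, Matrix.star_apply]
  · rw [h2]; exact h1
  · rw [h3, mul_comm]; exact h1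

/-- the torus chart with values in `U(2)` -/
noncomputable def eU (x : Fin 1 → ℝ) : U2 := ⟨eD x, eD_unitary x⟩

lemma eU_coe (x : Fin 1 → ℝ) : (eU x : Matrix (Fin 2) (Fin 2) ℂ) = eD x := rfl

lemma eU_mem (x : Fin 1 → ℝ) : eU x ∈ SU2 := by
  rw [mem_SU2, eU_coe, Matrix.det_fin_two]
  simp [eD]
  exact exp_mul_exp_neg' _

lemma eU_continuous : Continuous eU := by
  apply Continuous.subtype_mk
  unfold eD
  apply continuous_matrix
  intro i j
  fin_cases i <;> fin_cases j <;> simp <;> fun_prop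

lemma eU_add (x y : Fin 1 → ℝ) : eU (x + y) = eU x * eU y := by
  apply Subtype.ext
  rw [Submonoid.coe_mul, eU_coe, eU_coe, eU_coe]
  ext i j
  fin_cases i <;> fin_cases j <;>
    simp only [eD, Matrix.mul_apply, Fin.sum_univ_two] <;> simp
  · rw [← Complex.exp_add]; congr 1; ring
  · rw [← Complex.exp_add]
    congr 1; ring

lemma eU_discrete : ∃ ε > 0, ∀ x : Fin 1 → ℝ, ‖x‖ < ε → eU x = 1 → x = 0 := by
  refine ⟨1, one_pos, ?_⟩
  intro x hx hx1
  have h1 := congrArg (fun g : U2 => (g : Matrix (Fin 2) (Fin 2) ℂ) 0 0) hx1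
  simp [eU_coe, eD] at h1
  rw [Complex.exp_eq_one_iff] at h1
  obtain ⟨n, hn⟩ := h1
  have h2 : ((x 0 : ℝ) : ℂ) = (n : ℂ) := by
    have hpi : (2 * Real.pi * Complex.I : ℂ) ≠ 0 := Complex.two_pi_I_ne_zero
    have h3 : (2 * Real.pi * Complex.I : ℂ) * (x 0 : ℂ) = (2 * Real.pi * Complex.I : ℂ) * n := by
      rw [hn]; ring
    exact mul_left_cancel₀ hpi h3
  have h4 : x 0 = n := by exact_mod_cast h2
  have h5 : |x 0| < 1 := lt_of_le_of_lt (norm_le_pi_norm x 0) hx
  rw [h4] at h5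
  have h6 : |n| < 1 := by exact_mod_cast h5
  have h7 : n = 0 := Int.abs_lt_one_iff.1 h6
  funext i
  fin_cases i
  simp [h4, h7]

/-- an auxiliary element of the torus with distinct eigenvalues -/
lemma comm_diag {A : Matrix (Fin 2) (Fin 2) ℂ} (x : Fin 1 → ℝ) (hx : x 0 = 1 / 4)
    (h : A * eD x = eD x * A) : A 0 1 = 0 ∧ A 1 0 = 0 := by
  have he : Complex.exp (2 * Real.pi * Complex.I * ((1 / 4 : ℝ) : ℂ)) = Complex.I := by
    have : (2 * Real.pi * Complex.I * ((1 / 4 : ℝ) : ℂ)) = (Real.pi / 2 : ℂ) * Complex.I := by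
      push_cast; ring
    rw [this, Complex.exp_mul_I]
    simp
  have he' : Complex.exp (-(2 * Real.pi * Complex.I * ((1 / 4 : ℝ) : ℂ))) = -Complex.I := by
    rw [Complex.exp_neg, he, Complex.inv_I]
  constructor
  · have h1 := congrFun (congrFun h 0) 1
    simp only [eD, Matrix.mul_apply, Fin.sum_univ_two, hx, he, he'] at h1
    simp at h1
    have : (2 * Complex.I) * A 0 1 = 0 := by linear_combination -h1
    rcases mul_eq_zero.1 this with h2 | h2
    · exfalso; simp at h2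
    · exact h2
  · have h1 := congrFun (congrFun h 1) 0
    simp only [eD, Matrix.mul_apply, Fin.sum_univ_two, hx, he, he'] at h1
    simp at h1
    have : (2 * Complex.I) * A 1 0 = 0 := by linear_combination h1
    rcases mul_eq_zero.1 this with h2 | h2
    · exfalso; simp at h2
    · exact h2

lemma eU_max (g : U2) (hg : g ∈ SU2) (hc : ∀ x, g * eU x = eU x * g) : ∃ x, g = eU x := by
  have h1 := congrArg (fun g : U2 => (g : Matrix (Fin 2) (Fin 2) ℂ)) (hc (fun _ => 1 / 4))
  simp only [Submonoid.coe_mul] at h1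
  obtain ⟨h01, h10⟩ := comm_diag (fun _ => 1 / 4) rfl h1
  obtain ⟨e11, e01⟩ := SU2_entries hg
  have hdet := (mem_SU2 g).1 hg
  rw [Matrix.det_fin_two, e11, h01, zero_mul, sub_zero, Complex.mul_conj] at hdet
  have hn : Complex.normSq (g.1 0 0) = 1 := by exact_mod_cast hdet
  have hnorm : ‖g.1 0 0‖ = 1 := by
    rw [Complex.norm_def, hn, Real.sqrt_one]
  set θ := Complex.arg (g.1 0 0) with hθ
  have hexp : Complex.exp (θ * Complex.I) = g.1 0 0 := by
    have := Complex.norm_mul_exp_arg_mul_I (g.1 0 0)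
    rw [hnorm] at this
    simpa using this
  refine ⟨fun _ => θ / (2 * Real.pi), ?_⟩
  have hpi : (Real.pi : ℂ) ≠ 0 := by exact_mod_cast Real.pi_ne_zero
  have hval : 2 * Real.pi * Complex.I * ((θ / (2 * Real.pi) : ℝ) : ℂ) = θ * Complex.I := by
    push_cast
    field_simp
  apply Subtype.ext
  ext i j
  fin_cases i <;> fin_cases j
  · change g.1 0 0 = Complex.exp (2 * Real.pi * Complex.I * ((θ / (2 * Real.pi) : ℝ) : ℂ))
    rw [hval, hexp]
  · exact h01
  · exact h10
  · change g.1 1 1 = Complex.exp (-(2 * Real.pi * Complex.I * ((θ / (2 * Real.pi) : ℝ) : ℂ)))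
    rw [← conj_exp_im, hval, hexp, e11]

lemma SU2_cartan : CartanCoordinates SU2 eU :=
  ⟨eU_continuous, eU_add, eU_discrete, eU_mem, eU_max⟩

/-- the Weyl element -/
lemma weyl_unitary : (!![0, -1; 1, 0] : Matrix (Fin 2) (Fin 2) ℂ) ∈ Matrix.unitaryGroup (Fin 2) ℂ := by
  rw [Matrix.mem_unitaryGroup_iff]
  ext i j
  fin_cases i <;> fin_cases j <;>
    simp [Matrix.mul_apply, Fin.sum_univ_two, Matrix.star_apply]

lemma coe_neg_one : ((-1 : U2) : Matrix (Fin 2) (Fin 2) ℂ) = -1 := rfl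

lemma SU2_center : {g | g ∈ SU2 ∧ ∀ h ∈ SU2, g * h = h * g}.Finite := by
  have hsub : {g | g ∈ SU2 ∧ ∀ h ∈ SU2, g * h = h * g} ⊆ ({1, -1} : Set U2) := by
    rintro g ⟨hg, hc⟩
    have h1 := congrArg (fun g : U2 => (g : Matrix (Fin 2) (Fin 2) ℂ)) (hc _ (eU_mem (fun _ => 1 / 4)))
    simp only [Submonoid.coe_mul] at h1
    obtain ⟨h01, h10⟩ := comm_diag (fun _ => 1 / 4) rfl h1
    have hw : (⟨!![0, -1; 1, 0], weyl_unitary⟩ : U2) ∈ SU2 := by
      rw [mem_SU2, Matrix.det_fin_two]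
      simp
    have h2 := congrArg (fun g : U2 => (g : Matrix (Fin 2) (Fin 2) ℂ)) (hc _ hw)
    simp only [Submonoid.coe_mul] at h2
    have h3 := congrFun (congrFun h2 1) 0
    simp [Matrix.mul_apply, Fin.sum_univ_two] at h3
    -- h3 : g 1 1 = g 0 0
    have hdet := (mem_SU2 g).1 hg
    rw [Matrix.det_fin_two, h01, h3] at hdet
    have h4 : (g.1 0 0 - 1) * (g.1 0 0 + 1) = 0 := by linear_combination hdet
    rcases mul_eq_zero.1 h4 with h5 | h5
    · left
      have h6 : g.1 0 0 = 1 := by linear_combination h5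
      apply Subtype.ext
      ext i j
      fin_cases i <;> fin_cases j
      · simpa using h6
      · simpa using h01
      · simpa using h10
      · have : g.1 1 1 = 1 := by rw [← h6]; exact h3
        simpa using this
    · right
      have h6 : g.1 0 0 = -1 := by linear_combination h5
      apply Subtype.ext
      rw [coe_neg_one]
      ext i j
      fin_cases i <;> fin_cases j
      · simpa using h6
      · simpa using h01
      · simpa using h10
      · have : g.1 1 1 = -1 := by rw [← h6]; exact h3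
        simpa using this
  exact (Set.toFinite _).subset hsub

lemma SU2_ccs : CompactConnectedSemisimple SU2 := ⟨SU2_closed, SU2_connected, SU2_center⟩

end Pool.Agent.H99.Rains
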